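import Pool.Agent.Helper31.BQ.Stmts

/-!
# Affine Baire-one maps into spaces with the approximation property: statements of the rows

`K` is a compact Hausdorff space, `X` a compact convex subset of a Hausdorff locally convex real
space `V`, `E` a real normed space. Final row: `AP E → QP E`.
-/

set_option autoImplicit false

namespace Pool.Agent.Helper34.QA

open Filter Topology MeasureTheory Pool.Agent.Helper31.BQ
open scoped NNReal

universe u v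

/-- composition with an operator -/
def tc {K : Type*} [TopologicalSpace K] {E : Type*} [NormedAddCommGroup E] [NormedSpace ℝ E]
    (T : E →L[ℝ] E) (g : C(K, E)) : C(K, E) :=
  ⟨fun x => T (g x), T.continuous.comp g.continuous⟩

/-- PA: `p u = sup {Φ g | ‖g x‖ ≤ u x}` is additive and positively homogeneous. For `p (u + v) ≤
p u + p v` split `g` as `g₁ + g₂`, `g₁ x = (u x / max (u x) ‖g x‖) • g x` (continuous, also where
`u x = 0`, since `‖g₁ x‖ ≤ u x`), `‖g₂ x‖ = max 0 (‖g x‖ - u x) ≤ v x`. `p u ≤ ‖Φ‖ ‖u‖`. -/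
def ST_PA : Prop := ∀ (K : Type u) [TopologicalSpace K] [CompactSpace K] [T2Space K]
  (E : Type v) [NormedAddCommGroup E] [NormedSpace ℝ E] (Φ : C(K, E) →L[ℝ] ℝ),
    ∃ p : C(K, ℝ≥0) → ℝ≥0, (∀ u v, p (u + v) = p u + p v) ∧ (∀ (c : ℝ≥0) u, p (c • u) = c * p u) ∧
      ∀ (g : C(K, E)) (u : C(K, ℝ≥0)), (∀ x, ‖g x‖ ≤ (u x : ℝ)) → Φ g ≤ (p u : ℝ)

/-- RZ: Riesz-Markov-Kakutani (Mathlib: `NNRealRMK`, `C_c(K, ℝ≥0)` on a compact space; or
`RealRMK`). -/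
def ST_RZ : Prop := ∀ (K : Type u) [TopologicalSpace K] [CompactSpace K] [T2Space K]
  [MeasurableSpace K] [BorelSpace K] (p : C(K, ℝ≥0) → ℝ≥0), (∀ u v, p (u + v) = p u + p v) →
    (∀ (c : ℝ≥0) u, p (c • u) = c * p u) → ∃ ν : Measure K, IsFiniteMeasure ν ∧ ν.Regular ∧
      ∀ u : C(K, ℝ≥0), (p u : ℝ) = ∫ x, (u x : ℝ) ∂ν

/-- VAR (from PA, RZ): the total variation measure -/
def ST_VAR : Prop := ∀ (K : Type u) [TopologicalSpace K] [CompactSpace K] [T2Space K]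
  [MeasurableSpace K] [BorelSpace K] (E : Type v) [NormedAddCommGroup E] [NormedSpace ℝ E]
  (Φ : C(K, E) →L[ℝ] ℝ), ∃ ν : Measure K, IsFiniteMeasure ν ∧ ν.Regular ∧
    ∀ g : C(K, E), |Φ g| ≤ ∫ x, ‖g x‖ ∂ν

/-- SPL (from RZ and VAR with `E = ℝ`): `φ u = (∫ u ∂ν + φ u) - ∫ u ∂ν`, the first term is
nonnegative for `u ≥ 0`. -/
def ST_SPL : Prop := ∀ (K : Type u) [TopologicalSpace K] [CompactSpace K] [T2Space K]
  [MeasurableSpace K] [BorelSpace K] (φ : C(K, ℝ) →L[ℝ] ℝ), ∃ μ₁ μ₂ : Measure K,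
    IsFiniteMeasure μ₁ ∧ μ₁.Regular ∧ IsFiniteMeasure μ₂ ∧ μ₂.Regular ∧
    ∀ u : C(K, ℝ), φ u = ∫ x, u x ∂μ₁ - ∫ x, u x ∂μ₂

/-- BAR: barycentres. The closed sets `{x | ℓ x = ∫ ℓ}` have the finite intersection property:
for finitely many `ℓ i` the integral of `x ↦ (ℓ i x)_i` is in the compact convex image of `X`
(`Convex.integral_mem`). -/
def ST_BAR : Prop := ∀ (V : Type u) [AddCommGroup V] [Module ℝ V] [TopologicalSpace V]
  [IsTopologicalAddGroup V] [ContinuousSMul ℝ V] [T2Space V] [LocallyConvexSpace ℝ V]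
  (X : Set V), IsCompact X → Convex ℝ X → ∀ [MeasurableSpace X] [BorelSpace X] (μ : Measure X),
    IsProbabilityMeasure μ → ∃ b : X, ∀ ℓ : V →L[ℝ] ℝ, ℓ (b : V) = ∫ x : X, ℓ (x : V) ∂μ

/-- BDD: an affine Baire-one map is bounded: by Baire `‖f‖ ≤ N` on a nonempty open subset `U` of
`X`; `x₀ ∈ U`, and there is `t ∈ (0, 1)` with `(1 - t) x₀ + t y ∈ U` for all `y ∈ X` (compactness). -/
def ST_BDD : Prop := ∀ (V : Type u) [AddCommGroup V] [Module ℝ V] [TopologicalSpace V]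
  [IsTopologicalAddGroup V] [ContinuousSMul ℝ V] [T2Space V] [LocallyConvexSpace ℝ V]
  (X : Set V), IsCompact X → Convex ℝ X → ∀ (E : Type v) [NormedAddCommGroup E]
  [NormedSpace ℝ E] (f : X → E), IsAffineOn X f → IsBaireOne f →
    ∃ R : ℝ, 0 < R ∧ ∀ x, ‖f x‖ ≤ R

/-- TRU: bounded Baire-one maps are limits of uniformly bounded sequences (radial retraction
`y ↦ (R / max R ‖y‖) • y`). -/
def ST_TRU : Prop := ∀ (K : Type u) [TopologicalSpace K] (E : Type v) [NormedAddCommGroup E]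
  [NormedSpace ℝ E] (f : K → E) (R : ℝ), 0 < R → (∀ x, ‖f x‖ ≤ R) → IsBaireOne f →
    ∃ F : ℕ → C(K, E), (∀ n x, ‖F n x‖ ≤ R) ∧ ∀ x, Tendsto (fun n => F n x) atTop (𝓝 (f x))

/-- CAT: Baire category. `{x | ∀ k l ≥ N, |F k x - F l x| ≤ ε}` has nonempty interior for some
`N`, `ε = (t - s) / 8`; there `|g - F N| ≤ ε`. -/
def ST_CAT : Prop := ∀ (K : Type u) [TopologicalSpace K] [CompactSpace K] [T2Space K] [Nonempty K]
  (F : ℕ → C(K, ℝ)) (g : K → ℝ), (∀ x, Tendsto (fun n => F n x) atTop (𝓝 (g x))) →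
    ∀ s t : ℝ, s < t → Dense {x | g x ≤ s} → Dense {x | t ≤ g x} → False

/-- HJ: a finitely additive set function dominated by `C μ` is a signed measure; Hahn
decomposition of `c - δ μ`. -/
def ST_HJ : Prop := ∀ (Ω : Type u) [MeasurableSpace Ω] (μ : Measure Ω) [IsFiniteMeasure μ]
  (c : Set Ω → ℝ) (C : ℝ), (∀ A, MeasurableSet A → |c A| ≤ C * μ.real A) →
    (∀ A B, MeasurableSet A → MeasurableSet B → Disjoint A B → c (A ∪ B) = c A + c B) →
    ∀ δ : ℝ, δ * μ.real Set.univ < c Set.univ →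
      ∃ P, MeasurableSet P ∧ 0 < μ P ∧ ∀ B ⊆ P, MeasurableSet B → δ * μ.real B ≤ c B

/-- LUS: in a set of positive measure there is a compact set `A` of positive measure on which `g`
is almost constant and which is its own support (remove the relatively open null sets; a compact
subset of the removed part is null). -/
def ST_LUS : Prop := ∀ (K : Type u) [TopologicalSpace K] [CompactSpace K] [T2Space K]
  [MeasurableSpace K] [BorelSpace K] (μ : Measure K), IsFiniteMeasure μ → μ.Regular →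
    ∀ g : K → ℝ, Measurable g → ∀ P, MeasurableSet P → 0 < μ P → ∀ ε : ℝ, 0 < ε →
      ∃ A ⊆ P, IsCompact A ∧ 0 < μ A ∧ (∃ α : ℝ, ∀ x ∈ A, |g x - α| ≤ ε) ∧
        ∀ U, IsOpen U → (U ∩ A).Nonempty → 0 < μ (U ∩ A)

/-- GB (from BAR): barycentres of the restrictions; `β (A ∪ B)` is the convex combination of
`β A` and `β B` (Hahn-Banach: the `ℓ` separate points) and `g` is affine. If `μ A = 0` the terms
vanish and `β (A ∪ B) = β B`. -/
def ST_GB : Prop := ∀ (V : Type u) [AddCommGroup V] [Module ℝ V] [TopologicalSpace V]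
  [IsTopologicalAddGroup V] [ContinuousSMul ℝ V] [T2Space V] [LocallyConvexSpace ℝ V]
  (X : Set V), IsCompact X → Convex ℝ X → ∀ [MeasurableSpace X] [BorelSpace X] (μ : Measure X),
    IsProbabilityMeasure μ → ∀ b : X, (∀ ℓ : V →L[ℝ] ℝ, ℓ (b : V) = ∫ x : X, ℓ (x : V) ∂μ) →
    ∃ β : Set X → X, β Set.univ = b ∧
      (∀ B, MeasurableSet B → μ B ≠ 0 → ∀ ℓ : V →L[ℝ] ℝ,
        μ.real B * ℓ (β B : V) = ∫ x in B, ℓ (x : V) ∂μ) ∧
      ∀ g : X → ℝ, IsAffineOn X g → ∀ A B, MeasurableSet A → MeasurableSet B → Disjoint A B →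
        μ.real (A ∪ B) * g (β (A ∪ B)) = μ.real A * g (β A) + μ.real B * g (β B)

/-- CON (from CAT): on the closed convex hull `K'` of `A` (compact, in `X`) the convex hull of `A`
is dense and there `g ≤ α + δ / 4`; the convex hull of the `β B`, `B ⊆ A`, is in `K'` (closed
half spaces) and is dense (its closure contains each `x ∈ A`: for a closed convex neighbourhood
`N` of `x` take `B = A ∩ interior N`, `β B ∈ N`), there `g ≥ α + 3 δ / 4`. -/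
def ST_CON : Prop := ∀ (V : Type u) [AddCommGroup V] [Module ℝ V] [TopologicalSpace V]
  [IsTopologicalAddGroup V] [ContinuousSMul ℝ V] [T2Space V] [LocallyConvexSpace ℝ V]
  (X : Set V), IsCompact X → Convex ℝ X → ∀ [MeasurableSpace X] [BorelSpace X] (μ : Measure X),
    IsProbabilityMeasure μ → ∀ β : Set X → X,
    (∀ B, MeasurableSet B → μ B ≠ 0 → ∀ ℓ : V →L[ℝ] ℝ,
        μ.real B * ℓ (β B : V) = ∫ x in B, ℓ (x : V) ∂μ) →
    ∀ (g : X → ℝ) (F : ℕ → C(X, ℝ)), IsAffineOn X g →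
    (∀ x, Tendsto (fun n => F n x) atTop (𝓝 (g x))) →
    ∀ (A : Set X) (α δ : ℝ), IsCompact A → 0 < δ → 0 < μ A → (∀ x ∈ A, |g x - α| ≤ δ / 4) →
    (∀ U, IsOpen U → (U ∩ A).Nonempty → 0 < μ (U ∩ A)) →
    (∀ B ⊆ A, MeasurableSet B → μ B ≠ 0 → α + 3 * δ / 4 ≤ g (β B)) → False

/-- COR (from GB, CON, HJ, LUS): the barycentric formula. Apply to `g` and `-g`: if
`g b - ∫ g = 2 δ > 0`, HJ for `c B = μ B g (β B) - ∫_B g` gives `P`, LUS gives `A ⊆ P` with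
`ε = δ / 4`, and CON a contradiction. -/
def ST_COR : Prop := ∀ (V : Type u) [AddCommGroup V] [Module ℝ V] [TopologicalSpace V]
  [IsTopologicalAddGroup V] [ContinuousSMul ℝ V] [T2Space V] [LocallyConvexSpace ℝ V]
  (X : Set V), IsCompact X → Convex ℝ X → ∀ [MeasurableSpace X] [BorelSpace X] (μ : Measure X),
    IsProbabilityMeasure μ → μ.Regular → ∀ b : X,
    (∀ ℓ : V →L[ℝ] ℝ, ℓ (b : V) = ∫ x : X, ℓ (x : V) ∂μ) →
    ∀ (g : X → ℝ) (F : ℕ → C(X, ℝ)) (R : ℝ), IsAffineOn X g → (∀ n x, |F n x| ≤ R) →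
    (∀ x, Tendsto (fun n => F n x) atTop (𝓝 (g x))) → ∫ x, g x ∂μ = g b

/-- SCA (from SPL, BAR, COR): the two measures of SPL have the same mass (`1` is affine) and the
same barycentre (`ℓ` is affine); dominated convergence. -/
def ST_SCA : Prop := ∀ (V : Type u) [AddCommGroup V] [Module ℝ V] [TopologicalSpace V]
  [IsTopologicalAddGroup V] [ContinuousSMul ℝ V] [T2Space V] [LocallyConvexSpace ℝ V]
  (X : Set V) [CompactSpace X], IsCompact X → Convex ℝ X → ∀ φ : C(X, ℝ) →L[ℝ] ℝ,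
    (∀ a : C(X, ℝ), IsAffineOn X (fun x => a x) → φ a = 0) →
    ∀ (g : X → ℝ) (F : ℕ → C(X, ℝ)) (R : ℝ), IsAffineOn X g → (∀ n x, |F n x| ≤ R) →
    (∀ x, Tendsto (fun n => F n x) atTop (𝓝 (g x))) → Tendsto (fun k => φ (F k)) atTop (𝓝 0)

/-- FIN (from SCA): `T x = ∑ j, f_j (x) • y_j`; the functionals `u ↦ Φ (u • y_j)` on `C(X, ℝ)`
vanish on affine functions, apply SCA to `f_j ∘ F k`. -/
def ST_FIN : Prop := ∀ (V : Type u) [AddCommGroup V] [Module ℝ V] [TopologicalSpace V]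
  [IsTopologicalAddGroup V] [ContinuousSMul ℝ V] [T2Space V] [LocallyConvexSpace ℝ V]
  (X : Set V) [CompactSpace X], IsCompact X → Convex ℝ X → ∀ (E : Type v) [NormedAddCommGroup E]
  [NormedSpace ℝ E] (Φ : C(X, E) →L[ℝ] ℝ),
    (∀ a : C(X, E), IsAffineOn X (fun x => a x) → Φ a = 0) →
    ∀ (f : X → E) (F : ℕ → C(X, E)) (R : ℝ), IsAffineOn X f → (∀ n x, ‖F n x‖ ≤ R) →
    (∀ x, Tendsto (fun n => F n x) atTop (𝓝 (f x))) →
    ∀ T : E →L[ℝ] E, FiniteDimensional ℝ (LinearMap.range (T : E →ₗ[ℝ] E)) →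
      Tendsto (fun k => Φ (tc T (F k))) atTop (𝓝 0)

/-- LC: Cauchy in mean (dominated convergence along `atTop` on `ℕ × ℕ` for the real functions
`‖F k x - F l x‖ ≤ 2 R`) -/
def ST_LC : Prop := ∀ (K : Type u) [TopologicalSpace K] [CompactSpace K] [T2Space K]
  [MeasurableSpace K] [BorelSpace K] (E : Type v) [NormedAddCommGroup E] [NormedSpace ℝ E]
  (ν : Measure K), IsFiniteMeasure ν → ∀ (f : K → E) (F : ℕ → C(K, E)) (R : ℝ),
    (∀ n x, ‖F n x‖ ≤ R) → (∀ x, Tendsto (fun n => F n x) atTop (𝓝 (f x))) →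
    ∀ ε : ℝ, 0 < ε → ∃ N, ∀ k ≥ N, ∀ l ≥ N, ∫ x, ‖F k x - F l x‖ ∂ν ≤ ε

/-- KS: the compact set. `u j : K → E` continuous with values in the unit ball: the set
`{0} ∪ h(K) ∪ ⋃ j, 2^(-j) u_j (K)` is compact. -/
def ST_KS : Prop := ∀ (K : Type u) [TopologicalSpace K] [CompactSpace K] (E : Type v)
  [NormedAddCommGroup E] [NormedSpace ℝ E] (h : C(K, E)) (w : ℕ → C(K, E)), (∀ j x, ‖w j x‖ ≤ 1) →
    ∃ L : Set E, IsCompact L ∧ (∀ x, h x ∈ L) ∧ ∀ j x, ((2 : ℝ) ^ j)⁻¹ • w j x ∈ L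

/-- APR (from KS): choose `k_0 < k_1 < ...` with `∫ ‖F (k_(j+1)) - F (k_j)‖ ≤ 4^(-j)` and put
`g_j = F (k_(j+1)) - F (k_j) = s_j • w_j`, `s_j = ‖g_j‖ + 4^(-j)`; KS with `h = F (k_0)`, `w_j`
gives `L`, AP gives `T` with `‖T y - y‖ ≤ ε` on `L`:
`|Φ (T F (k_J)) - Φ (F (k_J))| ≤ ∫ ‖T F (k_J) - F (k_J)‖ ≤ ε ν(K) + ∑ j, ∫ s_j ‖T w_j - w_j‖ ≤
ε ν(K) + ∑ j, 2^j ε 4^(-j) (1 + ν(K)) ≤ C ε`, `Φ (T F (k_J)) → 0`. `Φ (F k)` is Cauchy. -/
def ST_APR : Prop := ∀ (K : Type u) [TopologicalSpace K] [CompactSpace K] [T2Space K]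
  [MeasurableSpace K] [BorelSpace K] (E : Type v) [NormedAddCommGroup E] [NormedSpace ℝ E],
    AP E → ∀ (ν : Measure K), IsFiniteMeasure ν → ∀ (Φ : C(K, E) →L[ℝ] ℝ),
    (∀ g : C(K, E), |Φ g| ≤ ∫ x, ‖g x‖ ∂ν) → ∀ (F : ℕ → C(K, E)),
    (∀ ε : ℝ, 0 < ε → ∃ N, ∀ k ≥ N, ∀ l ≥ N, ∫ x, ‖F k x - F l x‖ ∂ν ≤ ε) →
    (∀ T : E →L[ℝ] E, FiniteDimensional ℝ (LinearMap.range (T : E →ₗ[ℝ] E)) →
      Tendsto (fun k => Φ (tc T (F k))) atTop (𝓝 0)) → Tendsto (fun k => Φ (F k)) atTop (𝓝 0)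

/-- MAZ: Hahn-Banach: otherwise the convex set `convexHull + S` has distance `≥ ε` from `0`;
a separating functional vanishes on `S` and is `≥ c > 0` on all `h k`, `k ≥ n`. -/
def ST_MAZ : Prop := ∀ (B : Type u) [NormedAddCommGroup B] [NormedSpace ℝ B] (S : Submodule ℝ B)
  (h : ℕ → B), (∀ Φ : B →L[ℝ] ℝ, (∀ s ∈ S, Φ s = 0) → Tendsto (fun k => Φ (h k)) atTop (𝓝 0)) →
    ∀ (n : ℕ) (ε : ℝ), 0 < ε → ∃ y ∈ convexHull ℝ {z | ∃ k ≥ n, z = h k}, ∃ a ∈ S, ‖y - a‖ < ε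

/-- FNL (from BDD, TRU, VAR, FIN, LC, APR, MAZ): `B = C(X, E)`, `S` = the affine maps, `h = F`
from TRU; `a_n` with `‖y_n - a_n‖ < 1 / (n + 1)`, `y_n ∈ convexHull {F k | k ≥ n}` tends
pointwise to `f`. -/
def ST_FNL : Prop := ∀ (E : Type v) [NormedAddCommGroup E] [NormedSpace ℝ E], AP E →
  ∀ (V : Type u) [AddCommGroup V] [Module ℝ V] [TopologicalSpace V]
  [IsTopologicalAddGroup V] [ContinuousSMul ℝ V] [T2Space V] [LocallyConvexSpace ℝ V]
  (X : Set V), IsCompact X → Convex ℝ X → ∀ f : X → E, IsAffineOn X f → IsBaireOne f →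
    IsAffineBaireOne X f

end Pool.Agent.Helper34.QA
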